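import Mathlib

/-!
Ring homomorphisms from the integers of a cyclotomic field to a prime field, and a divisibility of norms.
-/

set_option autoImplicit false

namespace Pool.Agent.K1H22.RG

open NumberField Polynomial

section

variable {K : Type} [Field K] [NumberField K] {m p : ℕ} [NeZero m] [Fact p.Prime]
  [hK : IsCyclotomicExtension {m} ℚ K]

include hK in
/-- a primitive root of unity modulo `p` is the image of a given primitive root of unity -/
theorem exists_hom {z : 𝓞 K} (hz : IsPrimitiveRoot z m) {w : ZMod p} (hw : IsPrimitiveRoot w m) :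
    ∃ φ : 𝓞 K →+* ZMod p, φ z = w := by
  have hm : 0 < m := Nat.pos_of_ne_zero (NeZero.ne m)
  have hzK : IsPrimitiveRoot (z : K) m := hz.map_of_injective RingOfIntegers.coe_injective
  have hgen : hzK.integralPowerBasis.gen = z := by
    rw [IsPrimitiveRoot.integralPowerBasis_gen]
    exact RingOfIntegers.ext rfl
  have hmin : minpoly ℤ hzK.integralPowerBasis.gen = cyclotomic m ℤ := by
    rw [hgen, cyclotomic_eq_minpoly hzK hm]
    exact (minpoly.algebraMap_eq (B := 𝓞 K) (B' := K) RingOfIntegers.coe_injective z).symm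
  have hroot : aeval w (minpoly ℤ hzK.integralPowerBasis.gen) = 0 := by
    rw [hmin, aeval_def, ← eval_map, map_cyclotomic]
    exact hw.isRoot_cyclotomic hm
  refine ⟨(hzK.integralPowerBasis.lift w hroot : 𝓞 K →ₐ[ℤ] ZMod p).toRingHom, ?_⟩
  have h := hzK.integralPowerBasis.lift_gen w hroot
  rw [hgen] at h
  exact h

end

/-- if an integer of a number field is mapped to zero by `s` different homomorphisms to the prime
field, then `p ^ s` divides its norm -/
theorem pow_dvd_norm {K : Type} [Field K] [NumberField K] {p : ℕ} [Fact p.Prime] {ι : Type}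
    (I : Finset ι) (φ : ι → (𝓞 K →+* ZMod p)) (hinj : Set.InjOn φ I) (x : 𝓞 K)
    (hx : ∀ i ∈ I, φ i x = 0) : p ^ I.card ∣ (Algebra.norm ℤ x).natAbs := by
  classical
  have hsurj : ∀ i, Function.Surjective (φ i) := fun i => ZMod.ringHom_surjective (φ i)
  have hmax : ∀ i, (RingHom.ker (φ i)).IsMaximal := fun i => RingHom.ker_isMaximal_of_surjective _ (hsurj i)
  have hnorm : ∀ i, Ideal.absNorm (RingHom.ker (φ i)) = p := by
    intro i
    rw [Ideal.absNorm_apply, Submodule.cardQuot_apply]
    have e := RingHom.quotientKerEquivOfSurjective (hsurj i)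
    exact (Nat.card_congr e.toEquiv).trans (Nat.card_zmod p)
  have hne : ∀ i j, RingHom.ker (φ i) = RingHom.ker (φ j) → φ i = φ j := by
    intro i j h
    have h1 : ∀ y : 𝓞 K, φ i y = φ j y := by
      intro y
      -- lift the value to an integer
      obtain ⟨n, hn⟩ := ZMod.intCast_surjective (φ i y)
      have h2 : y - (n : 𝓞 K) ∈ RingHom.ker (φ i) := by
        rw [RingHom.mem_ker, map_sub, map_intCast, hn, sub_self]
      rw [h, RingHom.mem_ker, map_sub, map_intCast, hn] at h2
      exact (sub_eq_zero.mp h2).symm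
    exact RingHom.ext h1
  have hcop : ∀ i ∈ I, ∀ j ∈ I, i ≠ j → IsCoprime (RingHom.ker (φ i)) (RingHom.ker (φ j)) := by
    intro i hi j hj hij
    have := hmax i
    have := hmax j
    rw [Ideal.isCoprime_iff_sup_eq]
    exact Ideal.IsMaximal.coprime_of_ne (hmax i) (hmax j) fun h => hij (hinj hi hj (hne i j h))
  have hdvd : ∏ i ∈ I, RingHom.ker (φ i) ∣ Ideal.span {x} := by
    apply Finset.prod_dvd_of_coprime
    · intro i hi j hj hij
      exact hcop i hi j hj hij
    · intro i hi
      rw [Ideal.dvd_span_singleton]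
      exact hx i hi
  have h1 := map_dvd Ideal.absNorm hdvd
  rw [map_prod, Finset.prod_congr rfl (fun i _ => hnorm i), Finset.prod_const,
    Ideal.absNorm_span_singleton] at h1
  exact h1

end Pool.Agent.K1H22.RG
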