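import Mathlib
import Pool.Agent.R361.QF.HalfNe
import Pool.Agent.R361.QF.BernHalf
import Pool.Agent.TH487.RP.PV
import Pool.Agent.K1H22.RG.Hom

/-!
Half sums of the conjugates of an odd character modulo `p`, and irregular indices.
-/

set_option autoImplicit false

namespace Pool.Agent.K1H22.RG

open NumberField Finset

section chars

variable {p : ℕ} [hp : Fact p.Prime] {R : Type} [CommRing R] [IsDomain R]

/-- a generator of the units and the value of a character of order `m` there -/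
theorem gen (χ : MulChar (ZMod p) R) : ∃ g : (ZMod p)ˣ, orderOf g = p - 1 ∧
    (∀ a : (ZMod p)ˣ, ∃ j : ℕ, g ^ j = a) ∧ IsPrimitiveRoot (χ (g : ZMod p)) (orderOf χ) := by
  obtain ⟨g, hg⟩ := (inferInstance : IsCyclic (ZMod p)ˣ).exists_generator
  have ho : orderOf g = p - 1 := by
    rw [orderOf_eq_card_of_forall_mem_zpowers hg, Nat.card_eq_fintype_card, ZMod.card_units]
  have hpow : ∀ a : (ZMod p)ˣ, ∃ j : ℕ, g ^ j = a := by
    intro a
    have := hg a
    rw [← mem_powers_iff_mem_zpowers] at this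
    exact this
  refine ⟨g, ho, hpow, ?_, ?_⟩
  · rw [← MulChar.pow_apply_coe, pow_orderOf_eq_one, MulChar.one_apply_coe]
  · intro l hl
    apply orderOf_dvd_of_pow_eq_one
    refine MulChar.ext fun t => ?_
    obtain ⟨j, rfl⟩ := hpow t
    rw [MulChar.pow_apply_coe, Units.val_pow_eq_pow_val, map_pow, ← pow_mul, mul_comm, pow_mul,
      hl, one_pow, ← Units.val_pow_eq_pow_val, MulChar.one_apply_coe]

/-- a character of order `(p - 1) / t` with `t` odd is odd -/
theorem odd_of_order (hp2 : p % 2 = 1) (χ : MulChar (ZMod p) R) {t : ℕ} (ht : t % 2 = 1)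
    (h : orderOf χ * t = p - 1) (h2 : (1 : R) ≠ -1) : χ (-1) = -1 := by
  have h1 : χ (-1) * χ (-1) = 1 := by
    rw [← map_mul]
    norm_num
  rcases mul_self_eq_one_iff.mp h1 with h3 | h3
  · exfalso
    obtain ⟨g, ho, hpow, hz⟩ := gen χ
    obtain ⟨j, hj⟩ := hpow (-1)
    have h4 : (χ (g : ZMod p)) ^ j = 1 := by
      rw [← map_pow, ← Units.val_pow_eq_pow_val, hj]
      simpa using h3
    have h5 := hz.dvd_of_pow_eq_one j h4
    obtain ⟨c, hc⟩ := h5
    have h6 : g ^ (2 * j) = 1 := by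
      rw [mul_comm, pow_mul, hj]
      norm_num
    have h7 : g ^ j ≠ 1 := by
      rw [hj]
      intro h8
      have h9 := congrArg Units.val h8
      rw [Units.val_neg, Units.val_one] at h9
      have h10 : ((2 : ℕ) : ZMod p) = 0 := by
        push_cast
        linear_combination -h9
      rw [ZMod.natCast_eq_zero_iff] at h10
      have := Nat.le_of_dvd (by norm_num) h10
      have := hp.out.two_le
      omega
    have h8 := orderOf_dvd_of_pow_eq_one h6
    rw [ho, ← h] at h8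
    have h9 : ¬ (p - 1) ∣ j := by
      intro h10
      rw [← ho] at h10
      exact h7 (orderOf_dvd_iff_pow_eq_one.mp h10)
    rw [hc] at h8 h9
    have hm0 : 0 < orderOf χ := by
      rcases Nat.eq_zero_or_pos (orderOf χ) with h0 | h0
      · rw [h0, zero_mul] at h
        have := hp.out.two_le
        omega
      · exact h0
    -- `t ∣ 2 c`, so `t ∣ c`
    have h10 : t ∣ 2 * c := by
      have : orderOf χ * t ∣ orderOf χ * (2 * c) := by
        rw [show orderOf χ * (2 * c) = 2 * (orderOf χ * c) by ring]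
        exact h8
      exact Nat.dvd_of_mul_dvd_mul_left hm0 this
    have h11 : t ∣ c := by
      refine Nat.Coprime.dvd_of_dvd_mul_left ?_ h10
      rw [Nat.coprime_comm, Nat.coprime_two_left]
      exact Nat.odd_iff.mpr ht
    apply h9
    rw [← h]
    exact Nat.mul_dvd_mul_left _ h11
  · exact h3

end chars

section norm

variable {p : ℕ} [hp : Fact p.Prime]

/-- the half sum of a character -/
noncomputable def HS {R : Type} [CommRing R] (χ : MulChar (ZMod p) R) : R :=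
  ∑ a ∈ Icc 1 ((p - 1) / 2), χ (a : ZMod p)

variable {K : Type} [Field K] [NumberField K]

/-- the conjugate of a character by an embedding -/
noncomputable def cj (χ : MulChar (ZMod p) (𝓞 K)) (σ : K →ₐ[ℚ] ℂ) : MulChar (ZMod p) ℂ :=
  χ.ringHomComp (σ.toRingHom.comp (algebraMap (𝓞 K) K))

theorem cj_apply (χ : MulChar (ZMod p) (𝓞 K)) (σ : K →ₐ[ℚ] ℂ) (a : ZMod p) :
    cj χ σ a = σ (χ a : K) := rfl

theorem HS_cj (χ : MulChar (ZMod p) (𝓞 K)) (σ : K →ₐ[ℚ] ℂ) :
    HS (cj χ σ) = σ ((HS χ : 𝓞 K) : K) := by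
  unfold HS
  change _ = (σ.toRingHom.comp (algebraMap (𝓞 K) K)) (∑ a ∈ Icc 1 ((p - 1) / 2), χ (a : ZMod p))
  rw [map_sum]
  rfl

theorem norm_eq_prod (x : 𝓞 K) :
    (((Algebra.norm ℤ x).natAbs : ℕ) : ℝ) = ∏ σ : K →ₐ[ℚ] ℂ, ‖σ (x : K)‖ := by
  have h1 := Algebra.norm_eq_prod_embeddings ℚ ℂ (x : K)
  rw [← Algebra.coe_norm_int] at h1
  rw [← norm_prod, ← h1]
  rw [Nat.cast_natAbs]
  simp

theorem cj_odd (hp2 : p % 2 = 1) (χ : MulChar (ZMod p) (𝓞 K)) {t : ℕ} (ht : t % 2 = 1)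
    (h : orderOf χ * t = p - 1) (σ : K →ₐ[ℚ] ℂ) : (cj χ σ) (-1) = -1 := by
  rw [cj_apply, odd_of_order hp2 χ ht h]
  · simp
  · intro h2
    have h3 : (2 : 𝓞 K) = 0 := by linear_combination h2
    exact two_ne_zero h3

theorem HS_ne (hp2 : p % 2 = 1) (χ : MulChar (ZMod p) (𝓞 K)) {t : ℕ} (ht : t % 2 = 1)
    (h : orderOf χ * t = p - 1) (σ : K →ₐ[ℚ] ℂ) : σ ((HS χ : 𝓞 K) : K) ≠ 0 := by
  rw [← HS_cj]
  exact Pool.Agent.R361.QF.half_ne hp2 (cj χ σ) (cj_odd hp2 χ ht h σ)

theorem HS_le (hp2 : p % 2 = 1) (χ : MulChar (ZMod p) (𝓞 K)) {t : ℕ} (ht : t % 2 = 1)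
    (h : orderOf χ * t = p - 1) (σ : K →ₐ[ℚ] ℂ) :
    ‖σ ((HS χ : 𝓞 K) : K)‖ ≤ Real.sqrt p * Real.log p := by
  rw [← HS_cj]
  have hodd := cj_odd hp2 χ ht h σ
  have h1 : cj χ σ ≠ 1 := by
    intro h2
    rw [h2, MulChar.one_apply (isUnit_one.neg)] at hodd
    norm_num at hodd
  have h2 := Pool.Agent.TH487.RP.polya_vinogradov p (by rintro rfl; omega) (cj χ σ) h1
    ((p - 1) / 2 + 1)
  have h3 : HS (cj χ σ) = ∑ n ∈ range ((p - 1) / 2 + 1), cj χ σ ((n : ℕ) : ZMod p) := by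
    unfold HS
    have h4 : range ((p - 1) / 2 + 1) = insert 0 (Icc 1 ((p - 1) / 2)) := by
      ext n
      simp only [mem_range, mem_insert, mem_Icc]
      omega
    rw [h4, sum_insert (by simp), Nat.cast_zero, MulChar.map_zero, zero_add]
  rw [h3]
  exact h2

theorem norm_le (hp2 : p % 2 = 1) (χ : MulChar (ZMod p) (𝓞 K)) {t : ℕ} (ht : t % 2 = 1)
    (h : orderOf χ * t = p - 1) :
    (((Algebra.norm ℤ (HS χ)).natAbs : ℕ) : ℝ) ≤
      (Real.sqrt p * Real.log p) ^ (Module.finrank ℚ K) := by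
  rw [norm_eq_prod]
  refine (prod_le_prod (fun σ _ => norm_nonneg _) fun σ _ => HS_le hp2 χ ht h σ).trans
    (le_of_eq ?_)
  rw [prod_const, card_univ, AlgHom.card]

theorem norm_ne (hp2 : p % 2 = 1) (χ : MulChar (ZMod p) (𝓞 K)) {t : ℕ} (ht : t % 2 = 1)
    (h : orderOf χ * t = p - 1) : (Algebra.norm ℤ (HS χ)).natAbs ≠ 0 := by
  intro h0
  have h1 := norm_eq_prod (HS χ)
  rw [h0, Nat.cast_zero] at h1
  have h2 := prod_ne_zero_iff.mpr (fun σ (_ : σ ∈ (univ : Finset (K →ₐ[ℚ] ℂ))) =>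
    norm_ne_zero_iff.mpr (HS_ne hp2 χ ht h σ))
  exact h2 h1.symm

end norm

section indices

variable {p : ℕ} [hp : Fact p.Prime]

/-- the irregular indices `n ≤ p - 3` with `gcd (n - 1, p - 1) = t` -/
noncomputable def irr (p t : ℕ) : Finset ℕ :=
  (Icc 2 (p - 3)).filter fun n => Nat.gcd (n - 1) (p - 1) = t ∧ (p : ℤ) ∣ (bernoulli n).num

/-- `p ^ (number of irregular indices)` divides the norm of the half sum -/
theorem pow_irr_dvd {t m : ℕ} (hp5 : 5 ≤ p) (hm : m * t = p - 1) {K : Type} [Field K]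
    [NumberField K] [hK : IsCyclotomicExtension {m} ℚ K] (χ : MulChar (ZMod p) (𝓞 K))
    (hχ : orderOf χ = m) : p ^ (irr p t).card ∣ (Algebra.norm ℤ (HS χ)).natAbs := by
  have hm0 : 0 < m := by
    rcases Nat.eq_zero_or_pos m with h | h
    · rw [h, zero_mul] at hm; omega
    · exact h
  haveI : NeZero m := ⟨hm0.ne'⟩
  obtain ⟨g, ho, hpow, hz⟩ := gen χ
  rw [hχ] at hz
  have hgp : IsPrimitiveRoot (g : ZMod p) (p - 1) := by
    rw [← ho]
    exact (IsPrimitiveRoot.orderOf g).map_of_injective (f := Units.coeHom (ZMod p)) Units.val_injective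
  -- the homomorphisms
  have hex : ∀ n : ℕ, ∃ φ : 𝓞 K →+* ZMod p, n ∈ irr p t → φ (χ (g : ZMod p)) = (g : ZMod p) ^ (n - 1) := by
    intro n
    by_cases hn : n ∈ irr p t
    · rw [irr, mem_filter, mem_Icc] at hn
      obtain ⟨⟨h2, h3⟩, h4, -⟩ := hn
      have h5 : IsPrimitiveRoot ((g : ZMod p) ^ (n - 1)) m := by
        obtain ⟨c, hc⟩ : t ∣ n - 1 := h4 ▸ Nat.gcd_dvd_left _ _
        have ht0 : 0 < t := by
          rw [← h4]; exact Nat.gcd_pos_of_pos_right _ (by omega)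
        have h6 : IsPrimitiveRoot ((g : ZMod p) ^ t) m :=
          hgp.pow (by omega) (by rw [← hm]; ring)
        have h7 : Nat.Coprime c m := by
          have h8 : Nat.gcd (t * c) (t * m) = t * 1 := by
            rw [← hc, mul_comm t m, hm, h4, mul_one]
          rw [Nat.gcd_mul_left] at h8
          exact Nat.eq_of_mul_eq_mul_left ht0 h8
        rw [hc, pow_mul]
        exact h6.pow_of_coprime c h7
      obtain ⟨φ, hφ⟩ := exists_hom (K := K) hz h5
      exact ⟨φ, fun _ => hφ⟩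
    · have h5 : IsPrimitiveRoot ((g : ZMod p) ^ t) m :=
          hgp.pow (by omega) (by rw [← hm]; ring)
      obtain ⟨φ, -⟩ := exists_hom (K := K) hz h5
      exact ⟨φ, fun h => absurd h hn⟩
  choose φ hφ using hex
  refine pow_dvd_norm (irr p t) φ ?_ _ ?_
  · intro n hn n' hn' h
    have h1 : (g : ZMod p) ^ (n - 1) = (g : ZMod p) ^ (n' - 1) := by
      rw [← hφ n hn, ← hφ n' hn', h]
    rw [mem_coe, irr, mem_filter, mem_Icc] at hn hn'
    have h2 := hgp.pow_inj (by omega) (by omega) h1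
    omega
  · intro n hn
    have hv := hφ n hn
    rw [irr, mem_filter, mem_Icc] at hn
    obtain ⟨⟨h2, h3⟩, h4, h5⟩ := hn
    have hval : ∀ a : ZMod p, a ≠ 0 → φ n (χ a) = a ^ (n - 1) := by
      intro a ha
      obtain ⟨u, rfl⟩ := isUnit_iff_ne_zero.mpr ha
      obtain ⟨j, rfl⟩ := hpow u
      rw [Units.val_pow_eq_pow_val, map_pow, map_pow, hv, ← pow_mul, ← pow_mul, mul_comm]
    have h6 := Pool.Agent.R361.QF.half_pow_sum p (by omega) (n - 1) (by omega) (by omega)
      (by rw [show n - 1 + 1 = n by omega]; exact h5)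
    unfold HS
    rw [map_sum, ← h6]
    apply sum_congr rfl
    intro a ha
    rw [mem_Icc] at ha
    apply hval
    rw [Ne, ZMod.natCast_eq_zero_iff]
    intro hd
    have := Nat.le_of_dvd (by omega) hd
    omega

end indices

end Pool.Agent.K1H22.RG
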