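import Mathlib
import Pool.Agent.K1H22.RG.Main

/-!
The mean square of the half sums of the odd characters modulo `p`, and the inequality between the
arithmetic and the geometric mean.
-/

set_option autoImplicit false

namespace Pool.Agent.K1H22.RG

open NumberField Finset ComplexConjugate

section

variable {p : ℕ} [hp : Fact p.Prime]

theorem sq_expand (ψ : DirichletCharacter ℂ p) : ((‖HS ψ‖ ^ 2 : ℝ) : ℂ) =
    ∑ a ∈ Icc 1 ((p - 1) / 2), ∑ b ∈ Icc 1 ((p - 1) / 2),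
      ψ ((b : ZMod p)⁻¹) * ψ (a : ZMod p) := by
  have h1 : ((‖HS ψ‖ ^ 2 : ℝ) : ℂ) = HS ψ * conj (HS ψ) := by
    rw [Complex.mul_conj, Complex.normSq_eq_norm_sq]
  rw [h1, HS, map_sum, sum_mul_sum]
  refine sum_congr rfl fun a _ => sum_congr rfl fun b _ => ?_
  rw [mul_comm]
  congr 1
  rw [← MulChar.inv_apply', ← MulChar.star_eq_inv]
  rfl

theorem parseval (hp2 : p % 2 = 1) :
    ∑ ψ ∈ (univ : Finset (DirichletCharacter ℂ p)).filter (fun ψ => ψ (-1) = -1), ‖HS ψ‖ ^ 2 =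
      ((p : ℝ) - 1) ^ 2 / 4 := by
  classical
  set H := (p - 1) / 2 with hH
  have hp1 : p = 2 * H + 1 := by
    have := hp.out.two_le
    omega
  haveI : NeZero p := ⟨hp.out.ne_zero⟩
  have hcast : ∀ a : ℕ, 1 ≤ a → a ≤ H → (a : ZMod p) ≠ 0 := by
    intro a h1 h2
    rw [Ne, ZMod.natCast_eq_zero_iff]
    intro hd
    have := Nat.le_of_dvd (by omega) hd
    omega
  have hu : ∀ b : ℕ, 1 ≤ b → b ≤ H → IsUnit (b : ZMod p) := fun b h1 h2 =>
    isUnit_iff_ne_zero.mpr (hcast b h1 h2)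
  have e1 : (∑ ψ : DirichletCharacter ℂ p, (1 - ψ (-1)) * ((‖HS ψ‖ ^ 2 : ℝ) : ℂ)) =
      ((p : ℂ) - 1) * H := by
    have h0 : ∀ ψ : DirichletCharacter ℂ p, ((‖HS ψ‖ ^ 2 : ℝ) : ℂ) =
        ∑ a ∈ Icc 1 H, ∑ b ∈ Icc 1 H, ψ ((b : ZMod p)⁻¹) * ψ (a : ZMod p) := sq_expand
    have h1 : ∀ ψ : DirichletCharacter ℂ p, (1 - ψ (-1)) *
        ∑ a ∈ Icc 1 H, ∑ b ∈ Icc 1 H, ψ ((b : ZMod p)⁻¹) * ψ (a : ZMod p) =
        ∑ a ∈ Icc 1 H, ∑ b ∈ Icc 1 H, (ψ ((b : ZMod p)⁻¹) * ψ (a : ZMod p) -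
          ψ ((b : ZMod p)⁻¹) * ψ (-(a : ZMod p))) := by
      intro ψ
      rw [mul_sum]
      refine sum_congr rfl fun a _ => ?_
      rw [mul_sum]
      refine sum_congr rfl fun b _ => ?_
      rw [show -(a : ZMod p) = (-1) * (a : ZMod p) by ring, map_mul]
      ring
    rw [sum_congr rfl fun ψ _ => by rw [h0 ψ, h1 ψ]]
    rw [sum_comm]
    have h2 : ∀ a ∈ Icc 1 H, ∑ ψ : DirichletCharacter ℂ p, ∑ b ∈ Icc 1 H,
        (ψ ((b : ZMod p)⁻¹) * ψ (a : ZMod p) - ψ ((b : ZMod p)⁻¹) * ψ (-(a : ZMod p))) =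
        ((p : ℂ) - 1) := by
      intro a ha
      rw [mem_Icc] at ha
      rw [sum_comm]
      have h3 : ∀ b ∈ Icc 1 H, ∑ ψ : DirichletCharacter ℂ p,
          (ψ ((b : ZMod p)⁻¹) * ψ (a : ZMod p) - ψ ((b : ZMod p)⁻¹) * ψ (-(a : ZMod p))) =
          if b = a then ((p : ℂ) - 1) else 0 := by
        intro b hb
        rw [mem_Icc] at hb
        rw [sum_sub_distrib, DirichletCharacter.sum_char_inv_mul_char_eq ℂ (hu b hb.1 hb.2),
          DirichletCharacter.sum_char_inv_mul_char_eq ℂ (hu b hb.1 hb.2)]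
        have h4 : ¬ ((b : ZMod p) = -(a : ZMod p)) := by
          intro h
          have h5 : ((b + a : ℕ) : ZMod p) = 0 := by
            push_cast
            rw [h]
            ring
          rw [ZMod.natCast_eq_zero_iff] at h5
          have := Nat.le_of_dvd (by omega) h5
          omega
        rw [if_neg h4, sub_zero]
        have h6 : ((b : ZMod p) = (a : ZMod p)) ↔ b = a := by
          constructor
          · intro h
            rw [ZMod.natCast_eq_natCast_iff'] at h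
            rwa [Nat.mod_eq_of_lt (by omega), Nat.mod_eq_of_lt (by omega)] at h
          · rintro rfl; rfl
        simp only [h6]
        split_ifs with h7
        · rw [Nat.totient_prime hp.out, Nat.cast_sub hp.out.one_le, Nat.cast_one]
        · rfl
      rw [sum_congr rfl h3, sum_ite_eq' (Icc 1 H) a, if_pos (mem_Icc.mpr ha)]
    rw [sum_congr rfl h2, sum_const, Nat.card_Icc, nsmul_eq_mul]
    push_cast
    simp [mul_comm]
  -- the values at -1
  have e2 : ∀ ψ : DirichletCharacter ℂ p, ψ (-1) = 1 ∨ ψ (-1) = -1 := by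
    intro ψ
    have h1 : ψ (-1) * ψ (-1) = 1 := by
      rw [← map_mul]
      norm_num
    exact mul_self_eq_one_iff.mp h1
  have e3 : (∑ ψ : DirichletCharacter ℂ p, (1 - ψ (-1)) * ((‖HS ψ‖ ^ 2 : ℝ) : ℂ)) =
      ((2 * ∑ ψ ∈ (univ : Finset (DirichletCharacter ℂ p)).filter (fun ψ => ψ (-1) = -1),
        ‖HS ψ‖ ^ 2 : ℝ) : ℂ) := by
    rw [sum_filter, mul_sum, Complex.ofReal_sum]
    refine sum_congr rfl fun ψ _ => ?_
    rcases e2 ψ with h | h
    · have h2 : ¬ ((1 : ℂ) = -1) := by norm_num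
      rw [h, if_neg h2]
      simp
    · rw [h, if_pos rfl]
      push_cast
      ring
  rw [e3] at e1
  have e4 : (2 * ∑ ψ ∈ (univ : Finset (DirichletCharacter ℂ p)).filter (fun ψ => ψ (-1) = -1),
        ‖HS ψ‖ ^ 2 : ℝ) = ((p : ℝ) - 1) * H := by
    have : (((2 * ∑ ψ ∈ (univ : Finset (DirichletCharacter ℂ p)).filter (fun ψ => ψ (-1) = -1),
        ‖HS ψ‖ ^ 2 : ℝ)) : ℂ) = ((((p : ℝ) - 1) * H : ℝ) : ℂ) := by
      rw [e1]; push_cast; ring
    exact_mod_cast this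
  have e5 : (H : ℝ) = ((p : ℝ) - 1) / 2 := by
    have : (p : ℝ) = 2 * H + 1 := by exact_mod_cast hp1
    rw [this]; ring
  rw [e5] at e4
  linarith

end

/-- the inequality between the means -/
theorem amgm {ι : Type} (s : Finset ι) (y : ι → ℝ) (hy : ∀ i ∈ s, 0 ≤ y i) (T : ℝ) (hT : 0 < T)
    (h : ∑ i ∈ s, y i ≤ T) (hs : 0 < s.card) : ∏ i ∈ s, y i ≤ (T / s.card) ^ s.card := by
  have hn : (0 : ℝ) < s.card := by exact_mod_cast hs
  set c := T / s.card with hc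
  have hc0 : 0 < c := by positivity
  have h1 : ∏ i ∈ s, y i ≤ ∏ i ∈ s, (c * Real.exp (y i / c - 1)) := by
    refine prod_le_prod hy fun i hi => ?_
    have h2 := Real.add_one_le_exp (y i / c - 1)
    rw [sub_add_cancel] at h2
    calc y i = c * (y i / c) := by field_simp
      _ ≤ c * Real.exp (y i / c - 1) := mul_le_mul_of_nonneg_left h2 hc0.le
  refine h1.trans ?_
  rw [prod_mul_distrib, prod_const, ← Real.exp_sum]
  have h3 : ∑ i ∈ s, (y i / c - 1) ≤ 0 := by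
    rw [sum_sub_distrib, ← sum_div, sum_const, nsmul_eq_mul, mul_one, sub_nonpos, div_le_iff₀ hc0, hc]
    rw [mul_div_cancel₀ _ hn.ne']
    exact h
  calc c ^ s.card * Real.exp (∑ i ∈ s, (y i / c - 1)) ≤ c ^ s.card * 1 := by
        refine mul_le_mul_of_nonneg_left ?_ (by positivity)
        exact Real.exp_le_one_iff.mpr h3
    _ = c ^ s.card := mul_one _

section

variable {p : ℕ} [hp : Fact p.Prime] {K : Type} [Field K] [NumberField K]

theorem cj_inj {m : ℕ} [NeZero m] [hK : IsCyclotomicExtension {m} ℚ K]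
    (χ : MulChar (ZMod p) (𝓞 K)) (hχ : orderOf χ = m) : Function.Injective (cj χ) := by
  intro σ σ' h
  obtain ⟨g, -, -, hz⟩ := gen χ
  rw [hχ] at hz
  have hzK : IsPrimitiveRoot (χ (g : ZMod p) : K) m := hz.map_of_injective RingOfIntegers.coe_injective
  have h1 : σ (χ (g : ZMod p) : K) = σ' (χ (g : ZMod p) : K) := by
    have h2 := congrArg (fun ψ : MulChar (ZMod p) ℂ => ψ (g : ZMod p)) h
    exact h2
  refine (hzK.powerBasis ℚ).algHom_ext ?_
  rw [IsPrimitiveRoot.powerBasis_gen]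
  exact h1

theorem norm_sq_le (hp2 : p % 2 = 1) {t m : ℕ} [NeZero m] [hK : IsCyclotomicExtension {m} ℚ K]
    (χ : MulChar (ZMod p) (𝓞 K)) (hχ : orderOf χ = m) (ht : t % 2 = 1) (h : m * t = p - 1) :
    (((Algebra.norm ℤ (HS χ)).natAbs : ℕ) : ℝ) ^ 2 ≤
      (((p : ℝ) - 1) ^ 2 / (4 * (Module.finrank ℚ K))) ^ (Module.finrank ℚ K) := by
  classical
  rw [norm_eq_prod, ← prod_pow]
  have hcard : (univ : Finset (K →ₐ[ℚ] ℂ)).card = Module.finrank ℚ K := by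
    rw [card_univ, AlgHom.card]
  have hpos : 0 < (univ : Finset (K →ₐ[ℚ] ℂ)).card := by
    rw [hcard]; exact Module.finrank_pos
  have hp1 : (0 : ℝ) < (p : ℝ) - 1 := by
    have : (1 : ℝ) < p := by exact_mod_cast hp.out.one_lt
    linarith
  have h1 : ∑ σ : K →ₐ[ℚ] ℂ, ‖σ ((HS χ : 𝓞 K) : K)‖ ^ 2 ≤ ((p : ℝ) - 1) ^ 2 / 4 := by
    rw [← parseval hp2]
    have h2 : ∑ σ : K →ₐ[ℚ] ℂ, ‖σ ((HS χ : 𝓞 K) : K)‖ ^ 2 =
        ∑ ψ ∈ (univ : Finset (K →ₐ[ℚ] ℂ)).image (cj χ), ‖HS ψ‖ ^ 2 := by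
      rw [sum_image fun σ _ σ' _ hσ => cj_inj χ hχ hσ]
      exact sum_congr rfl fun σ _ => by rw [HS_cj]
    rw [h2]
    refine sum_le_sum_of_subset_of_nonneg ?_ fun _ _ _ => by positivity
    intro ψ hψ
    obtain ⟨σ, -, rfl⟩ := mem_image.mp hψ
    exact mem_filter.mpr ⟨mem_univ _, cj_odd hp2 χ ht (by rw [hχ]; exact h) σ⟩
  have h2 := amgm (univ : Finset (K →ₐ[ℚ] ℂ)) (fun σ => ‖σ ((HS χ : 𝓞 K) : K)‖ ^ 2)
    (fun _ _ => by positivity) (((p : ℝ) - 1) ^ 2 / 4) (by positivity) h1 hpos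
  rw [hcard] at h2
  refine h2.trans (le_of_eq ?_)
  rw [div_div]

end

end Pool.Agent.K1H22.RG
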