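import Mathlib
import Pool.Agent.K1H22.RG.Pars

/-!
Counting regular indices in a Galois orbit.
-/

set_option autoImplicit false

namespace Pool.Agent.K1H22.RG

open NumberField Finset

/-- the indices `2 ≤ n ≤ p - 1` with `gcd (n - 1, p - 1) = t` -/
def orb (p t : ℕ) : Finset ℕ := (Icc 2 (p - 1)).filter fun n => Nat.gcd (n - 1) (p - 1) = t

theorem orb_card {p t : ℕ} (hp5 : 5 ≤ p) (hpo : p % 2 = 1) (ht : t ∣ p - 1) (hodd : t % 2 = 1) :
    (orb p t).card = ((p - 1) / t).totient := by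
  rw [Nat.totient_div_of_dvd ht]
  refine card_bij (fun n _ => n - 1) ?_ ?_ ?_
  · intro n hn
    rw [orb, mem_filter, mem_Icc] at hn
    rw [mem_filter, mem_range]
    refine ⟨by omega, ?_⟩
    rw [Nat.gcd_comm]
    exact hn.2
  · intro n hn n' hn' h
    rw [orb, mem_filter, mem_Icc] at hn hn'
    omega
  · intro k hk
    rw [mem_filter, mem_range] at hk
    have hk0 : k ≠ 0 := by
      rintro rfl
      rw [Nat.gcd_zero_right] at hk
      omega
    refine ⟨k + 1, ?_, by simp⟩
    rw [orb, mem_filter, mem_Icc]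
    refine ⟨by omega, ?_⟩
    rw [Nat.add_sub_cancel, Nat.gcd_comm]
    exact hk.2

/-- von Staudt: `p` divides the denominator of `B_{p-1}` -/
theorem top_regular {p : ℕ} [hp : Fact p.Prime] (hp5 : 5 ≤ p) :
    ¬ (p : ℤ) ∣ (bernoulli (p - 1)).num := by
  intro h
  have hpo : p % 2 = 1 := by
    rcases hp.out.eq_two_or_odd with h1 | h1
    · omega
    · exact h1
  obtain ⟨z, hz⟩ := Bernoulli.vonStaudt_clausen ((p - 1) / 2)
  have e1 : 2 * ((p - 1) / 2) = p - 1 := by omega
  rw [e1] at hz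
  have hmem : p ∈ (range (p - 1 + 2)).filter (fun q => q.Prime ∧ (q - 1) ∣ (p - 1)) := by
    rw [mem_filter, mem_range]
    exact ⟨by omega, hp.out, dvd_refl _⟩
  rw [← add_sum_erase _ _ hmem] at hz
  have e2 : (1 : ℚ) / p = (z : ℚ) + ((-1 : ℤ) : ℚ) * (bernoulli (p - 1) +
      ∑ q ∈ ((range (p - 1 + 2)).filter (fun q => q.Prime ∧ (q - 1) ∣ (p - 1))).erase p,
        (1 : ℚ) / q) := by
    rw [hz]
    push_cast
    ring
  have hB : (((bernoulli (p - 1)).den : ℕ) : ZMod p) ≠ 0 := by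
    rw [Ne, ZMod.natCast_eq_zero_iff]
    intro h2
    have h3 := (bernoulli (p - 1)).reduced
    have h4 : p ∣ (bernoulli (p - 1)).num.natAbs := Int.natCast_dvd.mp h
    have h5 := Nat.dvd_gcd h4 h2
    rw [h3] at h5
    have := Nat.le_of_dvd (by norm_num) h5
    omega
  have hS := (Pool.Agent.H332R2.cast_sum_ok (F := ZMod p)
    (((range (p - 1 + 2)).filter (fun q => q.Prime ∧ (q - 1) ∣ (p - 1))).erase p)
    (fun q => (1 : ℚ) / q) (by
      intro q hq
      rw [mem_erase, mem_filter] at hq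
      obtain ⟨h1, -, h2, -⟩ := hq
      have h3 : ((1 : ℚ) / q).den = q := by simp [h2.ne_zero]
      rw [h3, Ne, ZMod.natCast_eq_zero_iff, Nat.prime_dvd_prime_iff_eq hp.out h2]
      exact fun h => h1 h.symm)).1
  have hz1 : (((z : ℚ).den : ℕ) : ZMod p) ≠ 0 := by simp
  have hm1 : (((((-1 : ℤ) : ℚ)).den : ℕ) : ZMod p) ≠ 0 := by
    rw [Rat.den_intCast]; simp
  have hall := Pool.Agent.H332R2.den_add_ne hz1 (Pool.Agent.H332R2.den_mul_ne hm1
    (Pool.Agent.H332R2.den_add_ne hB hS))
  rw [← e2] at hall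
  apply hall
  have : ((1 : ℚ) / p).den = p := by simp [hp.out.ne_zero]
  rw [this, ZMod.natCast_self]

theorem irr_eq {p t : ℕ} [hp : Fact p.Prime] (hp5 : 5 ≤ p) (hodd : t % 2 = 1) :
    irr p t = (orb p t).filter (fun n => (p : ℤ) ∣ (bernoulli n).num) := by
  have hpo : p % 2 = 1 := by
    rcases hp.out.eq_two_or_odd with h1 | h1
    · omega
    · exact h1
  ext n
  simp only [irr, orb, mem_filter, mem_Icc]
  constructor
  · rintro ⟨⟨h1, h2⟩, h3, h4⟩
    exact ⟨⟨⟨h1, by omega⟩, h3⟩, h4⟩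
  · rintro ⟨⟨⟨h1, h2⟩, h3⟩, h4⟩
    have h5 : n ≠ p - 1 := by
      rintro rfl
      exact top_regular hp5 h4
    have h6 : n ≠ p - 2 := by
      rintro rfl
      have h7 : 2 ∣ Nat.gcd (p - 2 - 1) (p - 1) := Nat.dvd_gcd (by omega) (by omega)
      rw [h3] at h7
      omega
    exact ⟨⟨h1, by omega⟩, h3, h4⟩

/-- the two bounds for the irregular indices -/
theorem irr_bounds {p t : ℕ} [hp : Fact p.Prime] (hp5 : 5 ≤ p) (ht : t ∣ p - 1)
    (hodd : t % 2 = 1) :
    (p : ℝ) ^ (irr p t).card ≤ (Real.sqrt p * Real.log p) ^ ((p - 1) / t).totient ∧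
    ((p : ℝ) ^ (irr p t).card) ^ 2 ≤
      (((p : ℝ) - 1) ^ 2 / (4 * ((p - 1) / t).totient)) ^ ((p - 1) / t).totient := by
  have hpo : p % 2 = 1 := by
    rcases hp.out.eq_two_or_odd with h1 | h1
    · omega
    · exact h1
  obtain ⟨m, hm⟩ : ∃ m, m = (p - 1) / t := ⟨_, rfl⟩
  have hmt : m * t = p - 1 := by rw [hm]; exact Nat.div_mul_cancel ht
  have hm0 : 0 < m := by
    rcases Nat.eq_zero_or_pos m with h | h
    · rw [h, zero_mul] at hmt; omega
    · exact h
  haveI : NeZero m := ⟨hm0.ne'⟩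
  haveI : NeZero ((m : ℕ) : ℚ) := ⟨by exact_mod_cast hm0.ne'⟩
  rw [← hm]
  haveI : IsCyclotomicExtension {m} ℚ (CyclotomicField m ℚ) :=
    CyclotomicField.isCyclotomicExtension m ℚ
  have hz := IsCyclotomicExtension.zeta_spec m ℚ (CyclotomicField m ℚ)
  have hzO := hz.toInteger_isPrimitiveRoot
  obtain ⟨χ, hχ⟩ := MulChar.exists_mulChar_orderOf (ZMod p) (n := m) (by
    rw [ZMod.card]; exact ⟨t, hmt.symm⟩) hzO
  have hfin : Module.finrank ℚ (CyclotomicField m ℚ) = m.totient :=
    IsCyclotomicExtension.Rat.finrank m (CyclotomicField m ℚ)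
  have hdvd := pow_irr_dvd (t := t) hp5 hmt (K := CyclotomicField m ℚ) χ hχ
  have hne := norm_ne hpo χ hodd (by rw [hχ]; exact hmt)
  have hle := Nat.le_of_dvd (Nat.pos_of_ne_zero hne) hdvd
  have hle' : (p : ℝ) ^ (irr p t).card ≤ (((Algebra.norm ℤ (HS χ)).natAbs : ℕ) : ℝ) := by
    exact_mod_cast hle
  constructor
  · have h1 := norm_le hpo χ hodd (by rw [hχ]; exact hmt)
    rw [hfin] at h1
    exact hle'.trans h1
  · have h1 := norm_sq_le hpo χ hχ hodd hmt
    rw [hfin] at h1
    exact (pow_le_pow_left₀ (by positivity) hle' 2).trans h1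

theorem log_sq_lt {x : ℝ} (hx : 5 ≤ x) : (Real.log x) ^ 2 < x := by
  have h0 : 0 < x := by linarith
  have h1 : Real.log x = 2 * Real.log (Real.sqrt x) := by
    rw [Real.log_sqrt h0.le]; ring
  have h3 : 0 < Real.sqrt x := Real.sqrt_pos.mpr h0
  -- `log y ≤ y / e`, `e > 2.7`
  have h4 : Real.log (Real.sqrt x) ≤ Real.sqrt x / Real.exp 1 := by
    have h5 := Real.add_one_le_exp (Real.log (Real.sqrt x) - 1)
    rw [sub_add_cancel, Real.exp_sub, Real.exp_log h3] at h5
    exact h5
  have h6 : (0 : ℝ) ≤ Real.log (Real.sqrt x) := by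
    apply Real.log_nonneg
    rw [show (1 : ℝ) = Real.sqrt 1 by simp]
    exact Real.sqrt_le_sqrt (by linarith)
  have h7 := Real.exp_one_gt_d9
  have h8 : Real.sqrt x / Real.exp 1 < Real.sqrt x / 2 := by
    apply div_lt_div_of_pos_left h3 (by norm_num)
    linarith
  have h9 : Real.log x < Real.sqrt x := by
    rw [h1]; linarith
  calc (Real.log x) ^ 2 < (Real.sqrt x) ^ 2 :=
        pow_lt_pow_left₀ h9 (by rw [h1]; linarith) (by norm_num)
    _ = x := Real.sq_sqrt h0.le

theorem final {p t : ℕ} [hp : Fact p.Prime] (hp5 : 5 ≤ p) (ht : t ∣ p - 1) (hodd : t % 2 = 1)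
    (r : ℕ) (hr : r = ((orb p t).filter (fun n => ¬ (p : ℤ) ∣ (bernoulli n).num)).card) :
    (((orb p t).card : ℝ) / 2 * (Real.log p - 2 * Real.log (Real.log p)) ≤ r * Real.log p) ∧
    (((orb p t).card : ℝ) / 2 * Real.log (4 * (orb p t).card) ≤ r * Real.log p) ∧
    ((Real.log p) ^ (orb p t).card < p → (orb p t).card ≤ 2 * r) := by
  have hpo : p % 2 = 1 := by
    rcases hp.out.eq_two_or_odd with h1 | h1
    · omega
    · exact h1
  obtain ⟨hb1, hb2⟩ := irr_bounds hp5 ht hodd
  rw [← orb_card hp5 hpo ht hodd] at hb1 hb2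
  have hsum : (irr p t).card + r = (orb p t).card := by
    rw [irr_eq hp5 hodd, hr]
    exact card_filter_add_card_filter_not _
  have hfpos : 0 < (orb p t).card := by
    rw [orb_card hp5 hpo ht hodd, Nat.totient_pos]
    exact Nat.div_pos (Nat.le_of_dvd (by omega) ht) (Nat.pos_of_dvd_of_pos ht (by omega))
  set f := (orb p t).card with hf
  set i := (irr p t).card with hi
  have hp0 : (0 : ℝ) < p := by exact_mod_cast hp.out.pos
  have hp5' : (5 : ℝ) ≤ p := by exact_mod_cast hp5
  have hlog1 : 1 < Real.log p := by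
    rw [Real.lt_log_iff_exp_lt hp0]
    have := Real.exp_one_lt_d9
    linarith
  have hlog0 : 0 < Real.log p := by linarith
  have hsR : (i : ℝ) + r = f := by exact_mod_cast hsum
  have hfR : (0 : ℝ) < f := by exact_mod_cast hfpos
  refine ⟨?_, ?_, ?_⟩
  · have h1 := Real.log_le_log (by positivity) hb1
    rw [Real.log_pow, Real.log_pow, Real.log_mul (Real.sqrt_pos.mpr hp0).ne' hlog0.ne',
      Real.log_sqrt hp0.le] at h1
    have h2 : (r : ℝ) * Real.log p = f * Real.log p - i * Real.log p := by rw [← hsR]; ring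
    rw [h2]
    linarith
  · have hp1 : (0 : ℝ) < (p : ℝ) - 1 := by linarith
    have h1 := Real.log_le_log (by positivity) hb2
    rw [Real.log_pow, Real.log_pow, Real.log_pow, Real.log_div (by positivity) (by positivity),
      Real.log_pow] at h1
    have h2 : (r : ℝ) * Real.log p = f * Real.log p - i * Real.log p := by rw [← hsR]; ring
    have h3 : Real.log ((p : ℝ) - 1) ≤ Real.log p := Real.log_le_log hp1 (by linarith)
    rw [h2]
    push_cast at h1
    nlinarith
  · intro hlt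
    by_contra hcon
    push Not at hcon
    have hcon2 : f + 1 ≤ 2 * i := by omega
    have hb3 : ((p : ℝ) ^ i) ^ 2 ≤ ((p : ℝ) * (Real.log p) ^ 2) ^ f := by
      refine (pow_le_pow_left₀ (by positivity) hb1 2).trans (le_of_eq ?_)
      rw [← pow_mul, mul_comm f 2, pow_mul, mul_pow, Real.sq_sqrt hp0.le]
    rw [← pow_mul] at hb3
    rcases Nat.even_or_odd f with he | ho
    · have h1 : f + 2 ≤ i * 2 := by
        obtain ⟨c, hc⟩ := he
        omega
      have h2 : (p : ℝ) ^ (f + 2) ≤ (p : ℝ) ^ (i * 2) := pow_le_pow_right₀ (by linarith) h1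
      have h3 := h2.trans hb3
      rw [pow_add, mul_pow] at h3
      have h4 := le_of_mul_le_mul_left h3 (by positivity)
      rw [← pow_mul, mul_comm 2 f, pow_mul] at h4
      have h5 := pow_lt_pow_left₀ hlt (by positivity) (two_ne_zero)
      linarith
    · have hf1 : f = 1 := by
        rw [hf, orb_card hp5 hpo ht hodd] at ho ⊢
        by_contra hne
        have h2 : 2 < (p - 1) / t := by
          by_contra hle
          push Not at hle
          apply hne
          have h3 : (p - 1) / t ≠ 0 := by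
            intro h4
            rw [h4, Nat.totient_zero] at ho
            exact absurd ho (by decide)
          interval_cases h5 : (p - 1) / t
          · exact absurd rfl h3
          · rfl
          · rfl
        exact (Nat.not_even_iff_odd.mpr ho) (Nat.totient_even h2)
      rw [hf1] at hb3 hcon2
      have h1 : (p : ℝ) ^ 2 ≤ (p : ℝ) ^ (i * 2) := pow_le_pow_right₀ (by linarith) (by omega)
      have h2 := h1.trans hb3
      rw [pow_one] at h2
      have h3 := log_sq_lt hp5'
      nlinarith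

end Pool.Agent.K1H22.RG
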